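import Mathlib
import Pool.Agent.H843R3.Had2.Cone

set_option autoImplicit false

/-!
Coverings of the polar body and separation of faces.
-/

open Set Topology Metric
open scoped InnerProductSpace
open Pool.Agent.H843R3.Had2

namespace Pool.Agent.TH438.Hull

section polar

variable {E : Type*} [NormedAddCommGroup E] [InnerProductSpace ℝ E]

/-- The polar body of `K` with respect to `o`. -/
def Pol (K : Set E) (o : E) : Set E := {v | ∀ y ∈ K, ⟪v, y - o⟫_ℝ ≤ 1}

theorem Pol.convex (K : Set E) (o : E) : Convex ℝ (Pol K o) := by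
  intro v hv w hw a b ha hb hab y hy
  rw [inner_add_left, real_inner_smul_left, real_inner_smul_left]
  nlinarith [hv y hy, hw y hy]

theorem Pol.isClosed (K : Set E) (o : E) : IsClosed (Pol K o) := by
  have : Pol K o = ⋂ y ∈ K, {v | ⟪v, y - o⟫_ℝ ≤ 1} := by
    ext v; simp [Pol]
  rw [this]
  refine isClosed_biInter fun y _ => isClosed_le ?_ continuous_const
  exact continuous_id.inner continuous_const

theorem Pol.norm_le {K : Set E} {o : E} {r : ℝ} (hr : 0 < r) (hrK : closedBall o r ⊆ K) :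
    ∀ v ∈ Pol K o, ‖v‖ ≤ 1 / r := by
  intro v hv
  rcases eq_or_ne v 0 with rfl | hv0
  · simp; positivity
  have hn : 0 < ‖v‖ := norm_pos_iff.mpr hv0
  have hy : o + (r / ‖v‖) • v ∈ K := by
    apply hrK
    rw [mem_closedBall, dist_eq_norm, add_sub_cancel_left, norm_smul, Real.norm_eq_abs,
      abs_of_pos (by positivity), div_mul_cancel₀ _ hn.ne']
  have h := hv _ hy
  rw [add_sub_cancel_left, real_inner_smul_right, real_inner_self_eq_norm_sq] at h
  rw [le_div_iff₀ hr]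
  have e : r / ‖v‖ * ‖v‖ ^ 2 = ‖v‖ * r := by field_simp
  linarith

theorem exists_ball {K : Set E} {o : E} (ho : o ∈ interior K) : ∃ r > 0, closedBall o r ⊆ K := by
  obtain ⟨r, hr, h⟩ := Metric.isOpen_iff.mp isOpen_interior o ho
  exact ⟨r / 2, by positivity, (closedBall_subset_ball (by linarith)).trans
    (h.trans interior_subset)⟩

theorem exists_bound {K : Set E} (o : E) (hKc : IsCompact K) : ∃ R : ℝ, 0 < R ∧
    ∀ y ∈ K, ‖y - o‖ ≤ R := by
  obtain ⟨R, hR⟩ := hKc.isBounded.subset_closedBall o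
  exact ⟨max R 1, by positivity, fun y hy => by
    have : ‖y - o‖ ≤ R := by simpa [dist_eq_norm] using hR hy
    exact this.trans (le_max_left _ _)⟩

theorem Pol.isCompact [FiniteDimensional ℝ E] {K : Set E} {o : E} (ho : o ∈ interior K) :
    IsCompact (Pol K o) := by
  obtain ⟨r, hr, hrK⟩ := exists_ball ho
  refine Metric.isCompact_of_isClosed_isBounded (Pol.isClosed K o) ?_
  refine (isBounded_iff_subset_closedBall 0).mpr ⟨1 / r, fun v hv => ?_⟩
  simpa using Pol.norm_le hr hrK v hv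

/-- A point at which all the inequalities are strict by a margin is an interior point. -/
theorem Pol.mem_interior {K : Set E} {o : E} {R : ℝ} (hR0 : 0 < R) (hR : ∀ y ∈ K, ‖y - o‖ ≤ R)
    {v : E} {s : ℝ} (hs : s < 1) (hv : ∀ y ∈ K, ⟪v, y - o⟫_ℝ ≤ s) : v ∈ interior (Pol K o) := by
  rw [_root_.mem_interior]
  refine ⟨ball v ((1 - s) / R), ?_, isOpen_ball, by
    rw [mem_ball, dist_self]; exact div_pos (by linarith) hR0⟩
  intro w hw y hy
  rw [mem_ball, dist_eq_norm] at hw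
  have h1 : ⟪w, y - o⟫_ℝ = ⟪v, y - o⟫_ℝ + ⟪w - v, y - o⟫_ℝ := by
    rw [← inner_add_left]; congr 1; abel
  have h2 : ⟪w - v, y - o⟫_ℝ ≤ (1 - s) / R * R := by
    refine (real_inner_le_norm _ _).trans ?_
    gcongr
    exact hR y hy
  rw [div_mul_cancel₀ _ hR0.ne'] at h2
  have := hv y hy
  rw [h1]; linarith

theorem Pol.zero_mem_interior {K : Set E} {o : E} (hKc : IsCompact K) :
    (0 : E) ∈ interior (Pol K o) := by
  obtain ⟨R, hR0, hR⟩ := exists_bound o hKc
  exact Pol.mem_interior hR0 hR (s := 0) one_pos (fun y _ => by rw [inner_zero_left])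

/-- A covering of the polar body gives separating hyperplanes. -/
theorem sep_of_cov [FiniteDimensional ℝ E] {K : Set E} (hKc : IsCompact K) {o : E}
    (ho : o ∈ interior K) (T : Finset E)
    (hT : Pol K o ⊆ ⋃ t ∈ T, (fun x => t + x) '' interior (Pol K o)) :
    ∃ ε : ℝ, 0 < ε ∧ ∀ u x₀ : E, u ≠ 0 → x₀ ∈ K → (∀ y ∈ K, ⟪u, y⟫_ℝ ≤ ⟪u, x₀⟫_ℝ) →
      ∃ t ∈ T, t ≠ 0 ∧ ∀ x ∈ K, ⟪u, x⟫_ℝ = ⟪u, x₀⟫_ℝ → ⟪t, o⟫_ℝ + ε < ⟪t, x⟫_ℝ := by
  classical
  obtain ⟨r, hr, hrK⟩ := exists_ball ho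
  have hPb := Pol.norm_le hr hrK
  have hPk : IsCompact (Pol K o) := Pol.isCompact ho
  -- a Lebesgue number
  obtain ⟨δ, hδ, hleb⟩ : ∃ δ > 0, ∀ v ∈ Pol K o, ∃ t ∈ T,
      ball v δ ⊆ (fun x => t + x) '' interior (Pol K o) := by
    have hop : ∀ t : T, IsOpen ((fun x => (t : E) + x) '' interior (Pol K o)) :=
      fun t => (Homeomorph.addLeft (t : E)).isOpenMap _ isOpen_interior
    have hcov : Pol K o ⊆ ⋃ t : T, (fun x => (t : E) + x) '' interior (Pol K o) := by
      intro v hv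
      have h := hT hv
      simp only [Set.mem_iUnion] at h ⊢
      obtain ⟨t, ht, h⟩ := h
      exact ⟨⟨t, ht⟩, h⟩
    obtain ⟨δ, hδ, h⟩ := lebesgue_number_lemma_of_metric hPk hop hcov
    refine ⟨δ, hδ, fun v hv => ?_⟩
    obtain ⟨t, ht⟩ := h v hv
    exact ⟨t, t.2, ht⟩
  set ε : ℝ := δ / 2 * r with hε
  have hε0 : 0 < ε := by positivity
  refine ⟨ε / 2, by positivity, ?_⟩
  intro u x₀ hu hx₀ hmax
  have hun : 0 < ‖u‖ := norm_pos_iff.mpr hu
  -- the support function is positive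
  have hpos : 0 < ⟪u, x₀ - o⟫_ℝ := by
    have hy : o + (r / ‖u‖) • u ∈ K := by
      apply hrK
      rw [mem_closedBall, dist_eq_norm, add_sub_cancel_left, norm_smul, Real.norm_eq_abs,
        abs_of_pos (by positivity), div_mul_cancel₀ _ hun.ne']
    have h := hmax _ hy
    rw [inner_add_right, real_inner_smul_right, real_inner_self_eq_norm_sq] at h
    rw [inner_sub_right]
    have : 0 < r / ‖u‖ * ‖u‖ ^ 2 := by positivity
    linarith
  set c : ℝ := ⟪u, x₀ - o⟫_ℝ with hc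
  have hvP : c⁻¹ • u ∈ Pol K o := by
    intro y hy
    rw [real_inner_smul_left, inv_mul_le_iff₀ hpos, mul_one, hc, inner_sub_right,
      inner_sub_right]
    linarith [hmax y hy]
  obtain ⟨t, htT, ht⟩ := hleb _ hvP
  -- the key inequality
  have key : ∀ x ∈ K, ⟪u, x⟫_ℝ = ⟪u, x₀⟫_ℝ → ε ≤ ⟪t, x - o⟫_ℝ := by
    intro x hx hxu
    have h1 : ⟪c⁻¹ • u, x - o⟫_ℝ = 1 := by
      rw [real_inner_smul_left, inner_sub_right, hxu, ← inner_sub_right, ← hc,
        inv_mul_cancel₀ hpos.ne']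
    have h2 : r ≤ ‖x - o‖ := by
      have h3 := real_inner_le_norm (c⁻¹ • u) (x - o)
      rw [h1] at h3
      have h4 := hPb _ hvP
      have h5 : 1 ≤ 1 / r * ‖x - o‖ := h3.trans (by gcongr)
      rw [one_div, ← div_eq_inv_mul, le_div_iff₀ hr] at h5
      linarith
    have hxn : 0 < ‖x - o‖ := hr.trans_le h2
    have hz : c⁻¹ • u + (δ / 2 / ‖x - o‖) • (x - o) ∈ ball (c⁻¹ • u) δ := by
      rw [mem_ball, dist_eq_norm, add_sub_cancel_left, norm_smul, Real.norm_eq_abs,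
        abs_of_pos (by positivity), div_mul_cancel₀ _ hxn.ne']
      linarith
    obtain ⟨p, hp, hpe⟩ := ht hz
    have hp' : ⟪p, x - o⟫_ℝ ≤ 1 := interior_subset hp x hx
    have hpe' : p = c⁻¹ • u + (δ / 2 / ‖x - o‖) • (x - o) - t := by
      rw [← hpe]; simp
    rw [hpe', inner_sub_left, inner_add_left, h1, real_inner_smul_left,
      real_inner_self_eq_norm_sq] at hp'
    have e : δ / 2 / ‖x - o‖ * ‖x - o‖ ^ 2 = δ / 2 * ‖x - o‖ := by field_simp
    rw [e] at hp'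
    have : ε ≤ δ / 2 * ‖x - o‖ := by
      rw [hε]; gcongr
    linarith
  have ht0 : t ≠ 0 := by
    rintro rfl
    have h := key x₀ hx₀ rfl
    rw [inner_zero_left] at h
    linarith
  refine ⟨t, htT, ht0, fun x hx hxu => ?_⟩
  have h := key x hx hxu
  rw [inner_sub_right] at h
  linarith

/-- A hyperplane separating the face of `K` in direction `v` illuminates the point `v` of the polar
body. -/
theorem Co_of_sep {K : Set E} (hKc : IsCompact K) {o : E} (ho : o ∈ interior K) {v a : E}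
    (hv : v ∈ Pol K o) (h : ∀ x ∈ K, ⟪v, x - o⟫_ℝ = 1 → 0 < ⟪a, x - o⟫_ℝ) :
    Co (Pol K o) v (-a) := by
  obtain ⟨R, hR0, hR⟩ := exists_bound o hKc
  -- the compact part of `K` where `a` is not positive
  set L : Set E := {x | x ∈ K ∧ ⟪a, x - o⟫_ℝ ≤ 0} with hL
  have hLc : IsCompact L := by
    have : L = K ∩ {x | ⟪a, x - o⟫_ℝ ≤ 0} := rfl
    rw [this]
    exact hKc.inter_right (isClosed_le (by fun_prop) continuous_const)
  have hoL : o ∈ L := ⟨interior_subset ho, by simp⟩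
  obtain ⟨z, hz, hzmax⟩ := hLc.exists_isMaxOn ⟨o, hoL⟩
    (f := fun x => ⟪v, x - o⟫_ℝ) (by fun_prop)
  have hz1 : ⟪v, z - o⟫_ℝ < 1 := by
    refine lt_of_le_of_ne (hv z hz.1) fun h1 => ?_
    exact absurd (h z hz.1 h1) (not_lt.2 hz.2)
  set s : ℝ := ⟪v, z - o⟫_ℝ with hs
  set M : ℝ := ‖a‖ * R + 1 with hM
  have hM0 : 0 < M := by positivity
  have ha : ∀ x ∈ K, -⟪a, x - o⟫_ℝ ≤ M := by
    intro x hx
    rw [← inner_neg_left]
    refine (real_inner_le_norm _ _).trans ?_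
    rw [norm_neg]
    have : ‖a‖ * ‖x - o‖ ≤ ‖a‖ * R := by gcongr; exact hR x hx
    linarith
  have hs0 : 0 ≤ s := by
    have : ⟪v, o - o⟫_ℝ ≤ s := hzmax hoL
    simpa using this
  set e : ℝ := (1 - s) / (2 * M) with he
  have he0 : 0 < e := div_pos (by linarith) (by positivity)
  refine ⟨e, he0, ?_⟩
  -- strictness at each point, then compactness
  obtain ⟨q, hq, hqmax⟩ := hKc.exists_isMaxOn ⟨o, interior_subset ho⟩
    (f := fun x => ⟪v + e • -a, x - o⟫_ℝ) (by fun_prop)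
  refine Pol.mem_interior hR0 hR (s := ⟪v + e • -a, q - o⟫_ℝ) ?_ (fun y hy => hqmax hy)
  rw [inner_add_left, real_inner_smul_left, inner_neg_left]
  rcases le_or_gt ⟪a, q - o⟫_ℝ 0 with h1 | h1
  · have h2 : ⟪v, q - o⟫_ℝ ≤ s := hzmax ⟨hq, h1⟩
    have h3 := ha q hq
    have h4 : e * -⟪a, q - o⟫_ℝ ≤ e * M := by gcongr
    have h5 : e * M = (1 - s) / 2 := by rw [he]; field_simp
    linarith
  · have h2 := hv q hq
    have h3 : 0 < e * ⟪a, q - o⟫_ℝ := by positivity
    have h4 : e * -⟪a, q - o⟫_ℝ = -(e * ⟪a, q - o⟫_ℝ) := by ring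
    linarith

end polar

end Pool.Agent.TH438.Hull
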