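import Mathlib
import Pool.Agent.TH438.Hull.Polar

set_option autoImplicit false

/-!
The bipolar theorem, and the two dual forms.
-/

open Set Topology Module
open scoped InnerProductSpace
open Pool.Agent.H843R3.Had2

namespace Pool.Agent.TH438.Hull

theorem bipolar {E : Type*} [NormedAddCommGroup E] [InnerProductSpace ℝ E] [CompleteSpace E]
    {L : Set E} (hL : Convex ℝ L) (hLc : IsClosed L) {c : E} (hc : c ∈ L) (v : E) :
    v ∈ Pol (Pol L c) 0 ↔ c + v ∈ L := by
  constructor
  · intro hv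
    by_contra hcon
    obtain ⟨f, u, hf1, hf2⟩ := geometric_hahn_banach_closed_point hL hLc hcon
    have hin : ∀ q, ⟪(InnerProductSpace.toDual ℝ E).symm f, q⟫_ℝ = f q := fun q =>
      InnerProductSpace.toDual_symm_apply
    set z := (InnerProductSpace.toDual ℝ E).symm f with hz
    have hs : 0 < u - f c := by linarith [hf1 c hc]
    have hw : (u - f c)⁻¹ • z ∈ Pol L c := by
      intro y hy
      rw [real_inner_smul_left, inv_mul_le_iff₀ hs, mul_one, inner_sub_right, hin, hin]
      linarith [hf1 y hy]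
    have h1 := hv _ hw
    rw [sub_zero, real_inner_comm, real_inner_smul_left, inv_mul_le_iff₀ hs, mul_one, hin] at h1
    rw [map_add] at hf2
    linarith
  · intro hv w hw
    have h1 := hw _ hv
    rw [add_sub_cancel_left] at h1
    rw [sub_zero, real_inner_comm]
    exact h1

/-- The polar of a cross-body has at most `2 ^ k` extreme points. -/
theorem hull_of_cross {k : ℕ} {L : Set (EuclideanSpace ℝ (Fin k))} (hL : Convex ℝ L)
    (hLc : IsClosed L) {c : EuclideanSpace ℝ (Fin k)} (hc : c ∈ L)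
    (v : Fin k → EuclideanSpace ℝ (Fin k)) (t : Fin k → ℝ) (hv : LinearIndependent ℝ v)
    (ht : ∀ i, 0 < t i)
    (h : Pol L c = convexHull ℝ (⋃ i, ({0 + v i, 0 - t i • v i} :
      Set (EuclideanSpace ℝ (Fin k))))) :
    ∃ Z : Finset (EuclideanSpace ℝ (Fin k)), Z.card ≤ 2 ^ k ∧
      L = convexHull ℝ (Z : Set (EuclideanSpace ℝ (Fin k))) := by
  classical
  -- the coordinates `⟪x, v i⟫`
  let φ : EuclideanSpace ℝ (Fin k) →ₗ[ℝ] (Fin k → ℝ) :=
    { toFun := fun x i => ⟪v i, x⟫_ℝ
      map_add' := fun x y => by ext i; simp [inner_add_right]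
      map_smul' := fun a x => by ext i; simp [real_inner_smul_right] }
  have hφ : ∀ x i, φ x i = ⟪v i, x⟫_ℝ := fun _ _ => rfl
  have hker : LinearMap.ker φ = ⊥ := by
    rw [LinearMap.ker_eq_bot']
    intro x hx
    have h1 : ∀ i, ⟪v i, x⟫_ℝ = 0 := fun i => by rw [← hφ, hx]; rfl
    have h2 : x ∈ Submodule.span ℝ (Set.range v) := by
      rw [hv.span_eq_top_of_card_eq_finrank' (by simp)]
      trivial
    have h3 : ∀ y ∈ Submodule.span ℝ (Set.range v), ⟪y, x⟫_ℝ = 0 := by
      intro y hy
      induction hy using Submodule.span_induction with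
      | mem y hy =>
        obtain ⟨i, rfl⟩ := hy
        exact h1 i
      | zero => exact inner_zero_left _
      | add y z _ _ h4 h5 => rw [inner_add_left, h4, h5, add_zero]
      | smul a y _ h4 => rw [real_inner_smul_left, h4, mul_zero]
    exact inner_self_eq_zero.1 (h3 x h2)
  let Φ : EuclideanSpace ℝ (Fin k) ≃ₗ[ℝ] (Fin k → ℝ) :=
    LinearEquiv.ofInjectiveOfFinrankEq φ (LinearMap.ker_eq_bot.1 hker) (by simp)
  have hΦ : ∀ x i, Φ x i = ⟪v i, x⟫_ℝ := fun _ _ => rfl
  -- the box
  have hbox : ∀ x, x ∈ L ↔ Φ (x - c) ∈ Set.pi univ fun i => Icc (-(t i)⁻¹) 1 := by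
    intro x
    have h1 := bipolar hL hLc hc (x - c)
    rw [add_sub_cancel] at h1
    rw [← h1, h]
    simp only [Set.mem_pi, mem_univ, true_imp_iff, hΦ, mem_Icc]
    constructor
    · intro h2 i
      have h3 := h2 _ (subset_convexHull ℝ _ (mem_iUnion.2 ⟨i, Or.inl rfl⟩))
      have h4 := h2 _ (subset_convexHull ℝ _ (mem_iUnion.2 ⟨i, Or.inr rfl⟩))
      rw [sub_zero, zero_add, real_inner_comm] at h3
      rw [sub_zero, zero_sub, inner_neg_right, real_inner_smul_right, real_inner_comm] at h4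
      refine ⟨?_, h3⟩
      rw [neg_le, inv_eq_one_div, le_div_iff₀ (ht i)]
      linarith
    · intro h2 y hy
      have h3 : convexHull ℝ (⋃ i, ({0 + v i, 0 - t i • v i} : Set (EuclideanSpace ℝ (Fin k)))) ⊆
          {y | ⟪x - c, y⟫_ℝ ≤ 1} := by
        refine convexHull_min ?_ ?_
        · intro y hy
          obtain ⟨i, rfl | rfl⟩ := mem_iUnion.1 hy
          · show ⟪x - c, 0 + v i⟫_ℝ ≤ 1
            rw [zero_add, real_inner_comm]
            exact (h2 i).2
          · show ⟪x - c, 0 - t i • v i⟫_ℝ ≤ 1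
            rw [zero_sub, inner_neg_right, real_inner_smul_right, real_inner_comm]
            have h4 := (h2 i).1
            rw [neg_le, inv_eq_one_div, le_div_iff₀ (ht i)] at h4
            linarith
        · intro a ha b hb p q hp hq hpq
          show ⟪x - c, p • a + q • b⟫_ℝ ≤ 1
          rw [inner_add_right, real_inner_smul_right, real_inner_smul_right]
          have ha' : ⟪x - c, a⟫_ℝ ≤ 1 := ha
          have hb' : ⟪x - c, b⟫_ℝ ≤ 1 := hb
          nlinarith
      rw [sub_zero]
      exact h3 hy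
  -- the vertices
  refine ⟨(Fintype.piFinset fun i => ({-(t i)⁻¹, 1} : Finset ℝ)).image
    (fun z => c + Φ.symm z), ?_, ?_⟩
  · refine Finset.card_image_le.trans ?_
    rw [Fintype.card_piFinset]
    calc ∏ i : Fin k, ({-(t i)⁻¹, 1} : Finset ℝ).card ≤ ∏ _i : Fin k, 2 :=
          Finset.prod_le_prod' fun i _ => Finset.card_le_two
      _ = 2 ^ k := by simp
  · have h1 : (Set.pi univ fun i => Icc (-(t i)⁻¹) 1) = convexHull ℝ
        ((Fintype.piFinset fun i => ({-(t i)⁻¹, 1} : Finset ℝ) : Finset (Fin k → ℝ)) :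
          Set (Fin k → ℝ)) := by
      rw [Fintype.coe_piFinset, convexHull_pi]
      congr 1
      ext i : 1
      rw [Finset.coe_pair, convexHull_pair, segment_eq_Icc]
      have := inv_pos.2 (ht i)
      linarith
    let g : (Fin k → ℝ) →ᵃ[ℝ] EuclideanSpace ℝ (Fin k) :=
      (AffineEquiv.constVAdd ℝ _ c).toAffineMap.comp Φ.symm.toLinearMap.toAffineMap
    have hg : ∀ z, g z = c + Φ.symm z := fun z => rfl
    have h2 : (((Fintype.piFinset fun i => ({-(t i)⁻¹, 1} : Finset ℝ)).image
        (fun z => c + Φ.symm z) : Finset _) : Set (EuclideanSpace ℝ (Fin k))) =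
        g '' ((Fintype.piFinset fun i => ({-(t i)⁻¹, 1} : Finset ℝ) : Finset (Fin k → ℝ)) :
          Set (Fin k → ℝ)) := by
      rw [Finset.coe_image]; rfl
    rw [h2, ← AffineMap.image_convexHull, ← h1]
    ext x
    rw [hbox x]
    constructor
    · intro h3
      exact ⟨_, h3, by rw [hg]; simp⟩
    · rintro ⟨z, hz, rfl⟩
      rw [hg]; simpa using hz

end Pool.Agent.TH438.Hull
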