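import Pool.Agent.TH438.Hull.Core

set_option autoImplicit false

/-!
The covering number of a convex body whose extreme points lie in finitely many compact convex
subsets.
-/

open Set Topology
open Pool.Agent.H843R3.Had2 Pool.Agent.W677.Shadow Pool.Agent.W677.Summand

namespace Pool.Agent.TH438.Hull

/-- `A` can be illuminated by `N` directions in its span. -/
def PieceDirs {n : ℕ} (A : Set (Eu n)) (N : ℕ) : Prop :=
  ∃ (k : ℕ) (f : Eu k →ₗᵢ[ℝ] Eu n) (a₀ : Eu n) (W : Finset (Eu k)), a₀ ∈ A ∧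
    (∀ x, x ∈ vectorSpan ℝ A ↔ ∃ u, f u = x) ∧ W.card ≤ N ∧
    ∀ y ∈ Lset f A a₀, ∃ w ∈ W, Co (Lset f A a₀) y w

theorem pd_of_rel {n : ℕ} {A : Set (Eu n)} (hne : A.Nonempty) {N : ℕ}
    (h : ∃ T : Finset (Eu n), T.card ≤ N ∧ A ⊆ ⋃ t ∈ T, (fun x => t + x) '' intrinsicInterior ℝ A) :
    PieceDirs A N := by
  obtain ⟨a₀, ha₀⟩ := hne
  obtain ⟨f, hf⟩ := coords (vectorSpan ℝ A) rfl
  obtain ⟨W, hW, h1⟩ := dirs_of_cover (cov_of_rel hf ha₀ h)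
  exact ⟨_, f, a₀, W, ha₀, hf, hW, h1⟩

theorem dirs_of_pieces {n : ℕ} {K : Set (Eu n)} (hK : Bdy K) {ι : Type*} [Fintype ι]
    (A : ι → Set (Eu n)) (hA : ∀ j, Convex ℝ (A j)) (hAc : ∀ j, IsCompact (A j))
    (hAK : ∀ j, A j ⊆ K) (hext : K.extremePoints ℝ ⊆ ⋃ j, A j) (N : ι → ℕ)
    (hN : ∀ j, (A j).Nonempty → PieceDirs (A j) (N j)) :
    ∃ D : Finset (Eu n), D.card ≤ ∑ j, N j ∧ ∀ x ∈ K, ∃ v ∈ D, Co K x v := by
  classical
  obtain ⟨p₀, hp₀⟩ := hK.2.2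
  -- directions for each piece
  have h1 : ∀ j, ∃ D : Finset (Eu n), D.card ≤ N j ∧ ∀ x ∈ A j, ∃ v ∈ D, Co K x v := by
    intro j
    rcases (A j).eq_empty_or_nonempty with h0 | h0
    · exact ⟨∅, by simp, fun x hx => by rw [h0] at hx; exact absurd hx (notMem_empty x)⟩
    obtain ⟨k, f, a₀, W, ha₀, hf, hW, h2⟩ := hN j h0
    have hf' : ∀ x ∈ vectorSpan ℝ (A j), ∃ u, f u = x := fun x hx => (hf x).1 hx
    obtain ⟨D, hD, h3⟩ := piece hK.1 hp₀ (Lset_convex (a₀ := a₀) (ι := f) (hA j))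
      (Lset_compact hf' ha₀ (hAc j)) f a₀ (fun u hu => hAK j hu) W h2
    refine ⟨D, hD.trans hW, fun x hx => ?_⟩
    rw [← phi_image hf' ha₀] at hx
    obtain ⟨u, hu, rfl⟩ := hx
    exact h3 u hu
  choose D hD hD1 using h1
  refine ⟨Finset.univ.biUnion D, Finset.card_biUnion_le.trans (Finset.sum_le_sum fun j _ => hD j),
    fun z hz => ?_⟩
  -- remove the empty pieces
  obtain ⟨⟨j, hj⟩, x, hx, y, hy, l, hl0, hl1, rfl⟩ := repr_of_extreme (ι := {j // (A j).Nonempty})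
    hK.1 hK.2.1 (fun j => A j) (fun j => hA j) (fun j => hAc j) (fun j => j.2) (fun j => hAK j)
    (fun x hx => by
      obtain ⟨j, hj⟩ := mem_iUnion.1 (hext hx)
      exact mem_iUnion.2 ⟨⟨j, x, hj⟩, hj⟩) z hz
  obtain ⟨v, hv, h2⟩ := hD1 j x hx
  exact ⟨v, Finset.mem_biUnion.2 ⟨j, Finset.mem_univ j, hv⟩, Co.combo hK.1 h2 hy hl0 hl1⟩

theorem cov_of_pieces {n : ℕ} {K : Set (Eu n)} (hK : Bdy K) {ι : Type*} [Fintype ι]
    (A : ι → Set (Eu n)) (hA : ∀ j, Convex ℝ (A j)) (hAc : ∀ j, IsCompact (A j))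
    (hAK : ∀ j, A j ⊆ K) (hext : K.extremePoints ℝ ⊆ ⋃ j, A j) (N : ι → ℕ)
    (hN : ∀ j, (A j).Nonempty → PieceDirs (A j) (N j)) : Cov K (∑ j, N j) := by
  obtain ⟨D, hD, h1⟩ := dirs_of_pieces hK A hA hAc hAK hext N hN
  obtain ⟨T, hT, h2⟩ := cover_of_dirs hK.1 hK.2.1 D h1
  exact ⟨T, hT.trans hD, h2⟩

end Pool.Agent.TH438.Hull
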