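import Mathlib
import Pool.Agent.H2R2.Frac.Main
import Pool.Agent.TH438.Hull.Main
import Pool.Agent.TH438.Hull.Polar
import Pool.Agent.TH438.Levi.Main

set_option autoImplicit false

/-!
The equality case: a polar body with few vertices, and the pieces of dimension at most two.
-/

open Set Topology Module
open scoped InnerProductSpace
open Pool.Agent.H843R3.Had2 Pool.Agent.W677.Shadow Pool.Agent.W677.Summand

namespace Pool.Agent.TH438.Hull

/-- Directions for the points of a finite set containing the extreme points. -/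
theorem dirs_of_points {n : ℕ} {K : Set (Eu n)} (hK : Bdy K) (Z : Finset (Eu n))
    (hZK : (Z : Set (Eu n)) ⊆ K) (hext : K.extremePoints ℝ ⊆ Z) (D : Finset (Eu n))
    (hD : ∀ z ∈ Z, ∃ v ∈ D, Co K z v) : ∀ x ∈ K, ∃ v ∈ D, Co K x v := by
  classical
  intro x hx
  obtain ⟨⟨z, hz⟩, y, hy, y', hy', l, hl0, hl1, rfl⟩ := repr_of_extreme (ι := Z) hK.1 hK.2.1
    (fun z => {(z : Eu n)}) (fun z => convex_singleton _) (fun z => isCompact_singleton)
    (fun z => singleton_nonempty _) (fun z => singleton_subset_iff.2 (hZK z.2))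
    (fun x hx => mem_iUnion.2 ⟨⟨x, hext hx⟩, rfl⟩) x hx
  rw [mem_singleton_iff] at hy
  subst hy
  obtain ⟨v, hv, h⟩ := hD _ hz
  exact ⟨v, hv, Co.combo hK.1 h hy' hl0 hl1⟩

/-- **Equality.** The polar body has at most `2 ^ n` extreme points and cannot be illuminated by
fewer than `2 ^ n` directions. -/
theorem cross_of_points {n : ℕ} (hn : 1 ≤ n) {K : Set (Eu n)} (hKc : IsCompact K)
    (hK : Convex ℝ K) {o : Eu n} (ho : o ∈ interior K) (Z : Finset (Eu n))
    (hZ : Z.card ≤ 2 ^ n) (hext : (Pol K o).extremePoints ℝ ⊆ Z)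
    (hno : ¬ ∃ D : Finset (Eu n), D.card ≤ 2 ^ n - 1 ∧ ∀ x ∈ Pol K o, ∃ v ∈ D, Co (Pol K o) x v) :
    ∃ (v : Fin n → EuclideanSpace ℝ (Fin n)) (t : Fin n → ℝ), LinearIndependent ℝ v ∧
      (∀ i, 0 < t i) ∧
      K = convexHull ℝ (Set.range (fun i => o + v i) ∪ Set.range (fun i => o - t i • v i)) := by
  classical
  have hPc := Pol.isCompact (K := K) (o := o) ho
  have hP0 : (0 : Eu n) ∈ interior (Pol K o) := Pol.zero_mem_interior hKc
  have hP : Bdy (Pol K o) := ⟨Pol.convex K o, hPc, ⟨0, hP0⟩⟩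
  have : Nontrivial (Eu n) := by
    have : Nonempty (Fin n) := ⟨⟨0, hn⟩⟩
    infer_instance
  -- the extreme points
  set X : Finset (Eu n) := Z.filter (fun z => z ∈ (Pol K o).extremePoints ℝ) with hX
  have hXcard : X.card ≤ 2 ^ n := (Finset.card_filter_le _ _).trans hZ
  have hXext : (Pol K o).extremePoints ℝ ⊆ X := fun x hx => Finset.mem_filter.2 ⟨hext hx, hx⟩
  have hXP : (X : Set (Eu n)) ⊆ Pol K o := fun x hx => (Finset.mem_filter.1 hx).2.1
  have hpow : 0 < 2 ^ n := by positivity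
  have hX0 : ∀ x ∈ X, x ≠ 0 := by
    rintro x hx rfl
    have h1 := (Finset.mem_filter.1 hx).2
    obtain ⟨ε, hε, hb⟩ := Metric.isOpen_iff.1 isOpen_interior _ hP0
    obtain ⟨e, he⟩ := exists_norm_eq (Eu n) (show (0 : ℝ) ≤ ε / 2 by positivity)
    have h2 : e ∈ Pol K o := interior_subset (hb (by
      rw [mem_ball_zero_iff, he]; linarith))
    have h3 : -e ∈ Pol K o := interior_subset (hb (by
      rw [mem_ball_zero_iff, norm_neg, he]; linarith))
    have h4 := (mem_extremePoints.1 h1).2 e h2 (-e) h3 (by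
      refine ⟨1 / 2, 1 / 2, by norm_num, by norm_num, by norm_num, ?_⟩
      simp)
    have h5 : e = 0 := by simpa using h4.1
    rw [h5, norm_zero] at he
    linarith
  have hself : ∀ z ∈ Pol K o, Co (Pol K o) z (-z) := by
    intro z hz
    have h1 := Co.of (hP.1) (Cn.zero hz) hP0
    simpa using h1
  -- exactly `2 ^ n` of them
  have hcard : X.card = 2 ^ n := by
    by_contra hne
    refine hno ⟨X.image (fun z => -z), Finset.card_image_le.trans (by omega), ?_⟩
    exact dirs_of_points hP X hXP hXext _ fun z hz =>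
      ⟨-z, Finset.mem_image_of_mem _ hz, hself z (hXP hz)⟩
  -- no two of them are illuminated by the same direction
  have hpair : ∀ x ∈ X, ∀ y ∈ X, ∀ v, Co (Pol K o) x v → Co (Pol K o) y v → x = y := by
    intro x hx y hy v hxv hyv
    by_contra hxy
    refine hno ⟨insert v (((X.erase x).erase y).image (fun z => -z)), ?_, ?_⟩
    · have h1 : ((X.erase x).erase y).card = X.card - 1 - 1 := by
        rw [Finset.card_erase_of_mem (Finset.mem_erase.2 ⟨fun h => hxy h.symm, hy⟩),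
          Finset.card_erase_of_mem hx]
      have h2 := Finset.card_insert_le v (((X.erase x).erase y).image (fun z => -z))
      have h3 : (((X.erase x).erase y).image (fun z => -z)).card ≤ X.card - 1 - 1 :=
        h1 ▸ Finset.card_image_le
      have h4 : 1 < X.card := Finset.one_lt_card.2 ⟨x, hx, y, hy, hxy⟩
      omega
    · refine dirs_of_points hP X hXP hXext _ fun z hz => ?_
      by_cases h1 : z = x
      · subst h1; exact ⟨v, Finset.mem_insert_self _ _, hxv⟩
      by_cases h2 : z = y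
      · subst h2; exact ⟨v, Finset.mem_insert_self _ _, hyv⟩
      exact ⟨-z, Finset.mem_insert_of_mem (Finset.mem_image_of_mem _
        (Finset.mem_erase.2 ⟨h2, Finset.mem_erase.2 ⟨h1, hz⟩⟩)), hself z (hXP hz)⟩
  refine (Pool.Agent.H2R2.Frac.main n hn K hKc hK o ho).2.1 ?_
  intro H w hw hcov
  -- each hyperplane serves at most one extreme point
  have hone : ∀ h ∈ H, ∑ x ∈ X, {h : EuclideanSpace ℝ (Fin n) × ℝ | ⟪h.1, o⟫_ℝ < h.2 ∧
          ∀ y ∈ K, (∀ y' ∈ K, ⟪x, y'⟫_ℝ ≤ ⟪x, y⟫_ℝ) → h.2 < ⟪h.1, y⟫_ℝ}.indicator w h ≤ w h := by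
    intro h hh
    by_cases hex : ∃ x ∈ X, h ∈ {h : EuclideanSpace ℝ (Fin n) × ℝ | ⟪h.1, o⟫_ℝ < h.2 ∧
          ∀ y ∈ K, (∀ y' ∈ K, ⟪x, y'⟫_ℝ ≤ ⟪x, y⟫_ℝ) → h.2 < ⟪h.1, y⟫_ℝ}
    · obtain ⟨x, hx, hxh⟩ := hex
      rw [Finset.sum_eq_single x]
      · rw [Set.indicator_of_mem hxh]
      · intro y hy hyx
        refine Set.indicator_of_notMem (fun hyh => hyx ?_) _
        have hill : ∀ z ∈ X, (h ∈ {h : EuclideanSpace ℝ (Fin n) × ℝ | ⟪h.1, o⟫_ℝ < h.2 ∧
          ∀ y ∈ K, (∀ y' ∈ K, ⟪z, y'⟫_ℝ ≤ ⟪z, y⟫_ℝ) → h.2 < ⟪h.1, y⟫_ℝ}) →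
            Co (Pol K o) z (-h.1) := by
          intro z hz hzh
          refine Co_of_sep hKc ho (hXP hz) fun y hyK hy1 => ?_
          have h2 := hzh.2 y hyK (fun y' hy' => by
            have h3 := hXP hz y' hy'
            rw [inner_sub_right] at h3 hy1
            linarith)
          rw [inner_sub_right]
          have h4 := hzh.1
          linarith
        exact hpair y hy x hx _ (hill y hy hyh) (hill x hx hxh)
      · intro h1; exact absurd hx h1
    · push Not at hex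
      rw [Finset.sum_eq_zero fun x hx => Set.indicator_of_notMem (hex x hx) _]
      exact hw h hh
  have h1 : ∑ x ∈ X, (1 : ℝ) ≤ ∑ x ∈ X, ∑ h ∈ H, {h : EuclideanSpace ℝ (Fin n) × ℝ |
      ⟪h.1, o⟫_ℝ < h.2 ∧
          ∀ y ∈ K, (∀ y' ∈ K, ⟪x, y'⟫_ℝ ≤ ⟪x, y⟫_ℝ) → h.2 < ⟪h.1, y⟫_ℝ}.indicator w h :=
    Finset.sum_le_sum fun x hx => hcov x (hX0 x hx)
  rw [Finset.sum_comm] at h1
  have h2 := h1.trans (Finset.sum_le_sum hone)
  simp only [Finset.sum_const, nsmul_eq_mul, mul_one] at h2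
  rw [hcard] at h2
  exact_mod_cast h2

end Pool.Agent.TH438.Hull
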