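import Mathlib
import Pool.Agent.TH438.Hull.Main
import Pool.Agent.TH438.Levi.Main

set_option autoImplicit false

/-!
Pieces of dimension at most two; smooth pieces.
-/

open Set Topology Module
open scoped InnerProductSpace
open Pool.Agent.H843R3.Had2 Pool.Agent.W677.Shadow Pool.Agent.W677.Summand

namespace Pool.Agent.TH438.Hull

theorem PieceDirs.mono {n : ℕ} {A : Set (Eu n)} {N M : ℕ} (h : PieceDirs A N) (hNM : N ≤ M) :
    PieceDirs A M := by
  obtain ⟨k, f, a₀, W, h1, h2, h3, h4⟩ := h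
  exact ⟨k, f, a₀, W, h1, h2, h3.trans hNM, h4⟩

/-- the piece in its own coordinates -/
theorem pd_of_dirs {n : ℕ} {A : Set (Eu n)} {N : ℕ} {f : Eu (finrank ℝ (vectorSpan ℝ A)) →ₗᵢ[ℝ] Eu n}
    {a₀ : Eu n} (ha₀ : a₀ ∈ A) (hf : ∀ x, x ∈ vectorSpan ℝ A ↔ ∃ u, f u = x)
    (h : ∃ W : Finset (Eu (finrank ℝ (vectorSpan ℝ A))), W.card ≤ N ∧
      ∀ y ∈ Lset f A a₀, ∃ w ∈ W, Co (Lset f A a₀) y w) : PieceDirs A N := by
  obtain ⟨W, hW, h1⟩ := h
  exact ⟨_, f, a₀, W, ha₀, hf, hW, h1⟩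

/-- hulls of finite sets in coordinates -/
theorem hull_image {n k : ℕ} {A : Set (Eu n)} {f : Eu k →ₗᵢ[ℝ] Eu n}
    {a₀ : Eu n} (ha₀ : a₀ ∈ A) (hf : ∀ x, x ∈ vectorSpan ℝ A ↔ ∃ u, f u = x) {N : ℕ}
    (h : ∃ Z : Finset (Eu k), Z.card ≤ N ∧ Lset f A a₀ = convexHull ℝ (Z : Set (Eu k))) :
    ∃ Z : Finset (Eu n), Z.card ≤ N ∧ A = convexHull ℝ (Z : Set (Eu n)) := by
  classical
  obtain ⟨Z, hZ, h1⟩ := h
  refine ⟨Z.image (phi f a₀), Finset.card_image_le.trans hZ, ?_⟩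
  rw [← phi_image (fun x hx => (hf x).1 hx) ha₀, h1, Finset.coe_image]
  exact (phi f a₀).toAffineMap.image_convexHull _

/-- Pieces of dimension at most two. -/
theorem low_piece {n : ℕ} {A : Set (Eu n)} (hne : A.Nonempty) (hA : Convex ℝ A)
    (hAc : IsCompact A) (hd : finrank ℝ (vectorSpan ℝ A) ≤ 2) :
    PieceDirs A (2 ^ finrank ℝ (vectorSpan ℝ A)) ∧
    (PieceDirs A (2 ^ finrank ℝ (vectorSpan ℝ A) - 1) ∨ ∃ Z : Finset (Eu n),
      Z.card ≤ 2 ^ finrank ℝ (vectorSpan ℝ A) ∧ A = convexHull ℝ (Z : Set (Eu n))) := by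
  classical
  obtain ⟨a₀, ha₀⟩ := hne
  obtain ⟨f, hf⟩ := coords (vectorSpan ℝ A) rfl
  have hL : Bdy (Lset f A a₀) :=
    ⟨Lset_convex hA, Lset_compact (fun x hx => (hf x).1 hx) ha₀ hAc, Lset_int hf ha₀ hA⟩
  refine ⟨pd_of_dirs ha₀ hf (dirs_of_cover (body_le_two hd hL)), ?_⟩
  have key : ∀ (k : ℕ) (f : Eu k →ₗᵢ[ℝ] Eu n), k ≤ 2 → (∀ x, x ∈ vectorSpan ℝ A ↔ ∃ u, f u = x) →
      Bdy (Lset f A a₀) → PieceDirs A (2 ^ k - 1) ∨ ∃ Z : Finset (Eu k),
        Z.card ≤ 2 ^ k ∧ Lset f A a₀ = convexHull ℝ (Z : Set (Eu k)) := by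
    intro k f hk hf hL
    interval_cases k
    · right
      refine ⟨{0}, by simp, ?_⟩
      rw [Finset.coe_singleton, convexHull_singleton]
      ext x
      rw [mem_singleton_iff]
      refine ⟨fun _ => Subsingleton.elim _ _, fun h => ?_⟩
      rw [h]
      show a₀ + f 0 ∈ A
      rw [map_zero, add_zero]; exact ha₀
    · right
      obtain ⟨a, b, hab⟩ := one_dim _ hL.2.1 (hL.2.2.mono interior_subset) hL.1
      exact ⟨{a, b}, Finset.card_le_two, hab⟩
    · rcases Levi.levi hL.1 hL.2.1 hL.2.2 with ⟨W, hW, h⟩ | ⟨Z, hZ, h⟩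
      · exact Or.inl ⟨2, f, a₀, W, ha₀, hf, hW, h⟩
      · exact Or.inr ⟨Z, hZ, h⟩
  rcases key _ f hd hf hL with h | h
  · exact Or.inl h
  · exact Or.inr (hull_image ha₀ hf h)

/-- A functional on the Euclidean space separating a direction. -/
theorem exists_normal_vec {k : ℕ} {L : Set (Eu k)} (hL : Convex ℝ L) (hi : (interior L).Nonempty)
    {p w : Eu k} (hp : p ∈ L) (h : ¬ Co L p w) :
    ∃ v : Eu k, v ≠ 0 ∧ (∀ q ∈ L, ⟪v, q⟫_ℝ ≤ ⟪v, p⟫_ℝ) ∧ 0 ≤ ⟪v, w⟫_ℝ := by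
  classical
  set R : Set (Eu k) := (fun e : ℝ => p + e • w) '' Ioi 0 with hR
  have hRc : Convex ℝ R := by
    rintro _ ⟨a, ha, rfl⟩ _ ⟨b, hb, rfl⟩ s t hs ht hst
    refine ⟨s * a + t * b, ?_, ?_⟩
    · rcases hs.eq_or_lt with h0 | h0
      · have : t = 1 := by linarith
        rw [← h0, this]; simpa using hb
      · have h1 : 0 < s * a := mul_pos h0 ha
        have h2 : 0 ≤ t * b := mul_nonneg ht (le_of_lt hb)
        exact mem_Ioi.2 (by linarith)
    · have h1 : p = s • p + t • p := by rw [← add_smul, hst, one_smul]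
      simp only
      nth_rewrite 1 [h1]
      module
  have hdis : Disjoint (interior L) R := by
    rw [Set.disjoint_left]
    rintro _ hx ⟨e, he, rfl⟩
    exact h ⟨e, he, hx⟩
  obtain ⟨f, u, hf1, hf2⟩ := geometric_hahn_banach_open hL.interior isOpen_interior hRc hdis
  have hKu : ∀ q ∈ L, f q ≤ u := by
    intro q hq
    have h1 : q ∈ closure (interior L) := by
      rw [hL.closure_interior_eq_closure_of_nonempty_interior hi]
      exact subset_closure hq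
    exact closure_minimal (fun x hx => (hf1 x hx).le)
      (isClosed_le f.continuous continuous_const) h1
  have hpu : u ≤ f p := by
    by_contra hcon
    push Not at hcon
    have h1 : ∀ e : ℝ, 0 < e → u ≤ f p + e * f w := by
      intro e he
      have := hf2 _ ⟨e, he, rfl⟩
      simpa using this
    rcases le_or_gt (f w) 0 with h2 | h2
    · have := h1 1 one_pos
      linarith
    · have h3 := h1 ((u - f p) / (2 * f w)) (div_pos (by linarith) (by linarith))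
      have h4 : (u - f p) / (2 * f w) * f w = (u - f p) / 2 := by field_simp
      rw [h4] at h3
      linarith
  have hfp : f p = u := le_antisymm (hKu p hp) hpu
  have hfw : 0 ≤ f w := by
    have := hf2 _ ⟨1, mem_Ioi.2 one_pos, rfl⟩
    simp only [one_smul, map_add] at this
    linarith
  have hin : ∀ q, ⟪(InnerProductSpace.toDual ℝ (Eu k)).symm f, q⟫_ℝ = f q := fun q =>
    InnerProductSpace.toDual_symm_apply
  refine ⟨(InnerProductSpace.toDual ℝ (Eu k)).symm f, ?_, fun q hq => ?_, ?_⟩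
  · intro h0
    obtain ⟨o, ho⟩ := hi
    have h1 := hf1 o ho
    have h2 := hin o
    have h3 := hin p
    rw [h0, inner_zero_left] at h2 h3
    linarith
  · rw [hin, hin, hfp]; exact hKu q hq
  · rw [hin]; exact hfw

/-- `A` is smooth: at each point all supporting hyperplanes (in the affine hull) agree. -/
def SmoothIn {n : ℕ} (A : Set (Eu n)) : Prop :=
  ∀ x ∈ A, ∀ u ∈ vectorSpan ℝ A, ∀ v ∈ vectorSpan ℝ A, u ≠ 0 → v ≠ 0 →
    (∀ y ∈ A, ⟪u, y⟫_ℝ ≤ ⟪u, x⟫_ℝ) → (∀ y ∈ A, ⟪v, y⟫_ℝ ≤ ⟪v, x⟫_ℝ) → ∃ c : ℝ, 0 < c ∧ v = c • u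

/-- The `k + 1` directions of a simplex. -/
theorem simplex_dirs (k : ℕ) : ∃ W : Finset (Eu k), W.card ≤ k + 1 ∧ W.Nonempty ∧
    ∀ v : Eu k, v ≠ 0 → ∃ w ∈ W, ⟪v, w⟫_ℝ < 0 := by
  classical
  refine ⟨insert (-∑ i, EuclideanSpace.single i (1 : ℝ))
    (Finset.univ.image fun i : Fin k => EuclideanSpace.single i (1 : ℝ)), ?_,
    Finset.insert_nonempty _ _, fun v hv => ?_⟩
  · refine (Finset.card_insert_le _ _).trans ?_
    have := Finset.card_image_le (s := (Finset.univ : Finset (Fin k)))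
      (f := fun i : Fin k => EuclideanSpace.single i (1 : ℝ))
    rw [Finset.card_univ, Fintype.card_fin] at this
    omega
  · by_contra hcon
    push Not at hcon
    have h1 : ∀ i, 0 ≤ v i := by
      intro i
      have := hcon (EuclideanSpace.single i (1 : ℝ))
        (Finset.mem_insert_of_mem (Finset.mem_image_of_mem _ (Finset.mem_univ i)))
      rw [EuclideanSpace.inner_single_right] at this
      simpa using this
    have h2 := hcon _ (Finset.mem_insert_self _ _)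
    rw [inner_neg_right, inner_sum] at h2
    have h3 : ∑ i, v i ≤ 0 := by
      have : ∀ i, ⟪v, EuclideanSpace.single i (1 : ℝ)⟫_ℝ = v i := fun i => by
        rw [EuclideanSpace.inner_single_right]; simp
      simp only [this] at h2
      linarith
    have h4 : ∀ i, v i = 0 := by
      intro i
      have h5 := Finset.single_le_sum (fun j _ => h1 j) (Finset.mem_univ i)
      have := h1 i
      linarith
    exact hv (by ext i; exact h4 i)

theorem pd_of_smooth {n : ℕ} {A : Set (Eu n)} (hne : A.Nonempty) (hA : Convex ℝ A)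
    (hs : SmoothIn A) : PieceDirs A (finrank ℝ (vectorSpan ℝ A) + 1) := by
  classical
  obtain ⟨a₀, ha₀⟩ := hne
  obtain ⟨f, hf⟩ := coords (vectorSpan ℝ A) rfl
  obtain ⟨W, hW, hWn, hW1⟩ := simplex_dirs (finrank ℝ (vectorSpan ℝ A))
  refine ⟨_, f, a₀, W, ha₀, hf, hW, fun y hy => ?_⟩
  by_contra hcon
  push Not at hcon
  have hLi := Lset_int hf ha₀ hA
  have hLv : Convex ℝ (Lset f A a₀) := Lset_convex hA
  have hnorm : ∀ v : Eu (finrank ℝ (vectorSpan ℝ A)),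
      (∀ q ∈ Lset f A a₀, ⟪v, q⟫_ℝ ≤ ⟪v, y⟫_ℝ) → ∀ z ∈ A, ⟪f v, z⟫_ℝ ≤ ⟪f v, a₀ + f y⟫_ℝ := by
    intro v hv z hz
    rw [← phi_image (fun x hx => (hf x).1 hx) ha₀] at hz
    obtain ⟨q, hq, rfl⟩ := hz
    rw [phi_apply, inner_add_right, inner_add_right, f.inner_map_map, f.inner_map_map]
    linarith [hv q hq]
  -- a first normal vector
  obtain ⟨w₀, hw₀⟩ := hWn
  obtain ⟨v, hv0, hv1, _⟩ := exists_normal_vec hLv hLi hy (hcon w₀ hw₀)
  obtain ⟨w, hw, hvw⟩ := hW1 v hv0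
  obtain ⟨v', hv'0, hv'1, hv'2⟩ := exists_normal_vec hLv hLi hy (hcon w hw)
  have hne1 : f v ≠ 0 := fun h => hv0 (f.injective (by rw [h, map_zero]))
  have hne2 : f v' ≠ 0 := fun h => hv'0 (f.injective (by rw [h, map_zero]))
  obtain ⟨c, hc, h1⟩ := hs (a₀ + f y) hy (f v) ((hf _).2 ⟨v, rfl⟩) (f v') ((hf _).2 ⟨v', rfl⟩)
    hne1 hne2 (hnorm v hv1) (hnorm v' hv'1)
  have h2 : v' = c • v := f.injective (by rw [h1, map_smul])
  rw [h2, real_inner_smul_left] at hv'2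
  have h3 := nonneg_of_mul_nonneg_right hv'2 hc
  linarith

end Pool.Agent.TH438.Hull
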