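import Pool.Agent.W677.Summand3

set_option autoImplicit false

/-!
Covering the convex hull of several convex sets by translates of the interior: the pieces may have
smaller dimension.
-/

open Set Topology
open Pool.Agent.H843R3.Had2 Pool.Agent.W677.Shadow Pool.Agent.W677.Summand

namespace Pool.Agent.TH438.Hull

variable {E U : Type*} [NormedAddCommGroup E] [NormedSpace ℝ E]
  [NormedAddCommGroup U] [NormedSpace ℝ U]

/-- From a point of a piece to a point which has this point in a convex representation. -/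
theorem Co.combo {K : Set E} (hK : Convex ℝ K) {x y v : E} (hx : Co K x v) (hy : y ∈ K) {l : ℝ}
    (h0 : 0 < l) (h1 : l ≤ 1) : Co K (l • x + (1 - l) • y) v := by
  obtain ⟨e, he, h⟩ := hx
  refine ⟨l * e, by positivity, ?_⟩
  have h2 : l • x + (1 - l) • y + (l * e) • v = l • (x + e • v) + (1 - l) • y := by module
  rw [h2]
  exact hK.combo_interior_self_mem_interior h hy h0 (by linarith) (by ring)

/-- Directions for a piece `a₀ + ι L` of `K`. -/
theorem piece {K : Set E} {L : Set U} (hK : Convex ℝ K) {p₀ : E} (hp₀ : p₀ ∈ interior K)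
    (hL : Convex ℝ L) (hLc : IsCompact L) (ι : U →ₗᵢ[ℝ] E) (a₀ : E)
    (hLK : ∀ u ∈ L, a₀ + ι u ∈ K) (W : Finset U) (hW : ∀ y ∈ L, ∃ w ∈ W, Co L y w) :
    ∃ D : Finset E, D.card ≤ W.card ∧ ∀ u ∈ L, ∃ v ∈ D, Co K (a₀ + ι u) v := by
  classical
  rcases L.eq_empty_or_nonempty with rfl | ⟨y₀, hy₀⟩
  · exact ⟨∅, by simp, fun u hu => absurd hu (notMem_empty u)⟩
  obtain ⟨C, hC⟩ := hLc.isBounded.exists_norm_le
  obtain ⟨r, hr, hr1⟩ := unif hL hLc subset_rfl (fun v : W => (v : U)) (by
    intro x hx
    obtain ⟨v, hv, h2⟩ := hW x hx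
    exact ⟨⟨v, hv⟩, h2⟩)
  obtain ⟨ρ, hρ, hd⟩ := depth hLc W r (by
    intro y hy
    obtain ⟨w, hw⟩ := hr1 y hy
    exact ⟨w, w.2, hw⟩)
  have hC0 : 0 ≤ C := (norm_nonneg _).trans (hC y₀ hy₀)
  -- the small parameter
  obtain ⟨s, hs0, hs1, hs2⟩ : ∃ s : ℝ, 0 < s ∧ s < 1 ∧ s / (1 - s) * (2 * C) ≤ ρ := by
    refine ⟨ρ / (ρ + 2 * C + 1), by positivity, ?_, ?_⟩
    · rw [div_lt_one (by positivity)]; linarith
    · have h1 : 1 - ρ / (ρ + 2 * C + 1) = (2 * C + 1) / (ρ + 2 * C + 1) := by
        field_simp; ring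
      rw [h1]
      have h2 : ρ / (ρ + 2 * C + 1) / ((2 * C + 1) / (ρ + 2 * C + 1)) = ρ / (2 * C + 1) := by
        field_simp
      rw [h2, div_mul_eq_mul_div, div_le_iff₀ (by positivity)]
      nlinarith
  refine ⟨W.image (fun w => ι (r • w) + s • (p₀ - (a₀ + ι y₀))), Finset.card_image_le,
    fun u hu => ?_⟩
  obtain ⟨w, hw, h1⟩ := hd u hu
  refine ⟨_, Finset.mem_image_of_mem _ hw, 1, one_pos, ?_⟩
  have h2 : u + r • w ∈ L := by simpa using h1 0 (by simpa using hρ.le)
  have h3 : u + r • w + (s / (1 - s)) • (u + r • w - y₀) ∈ L := by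
    apply h1
    rw [norm_smul, Real.norm_eq_abs, abs_of_pos (div_pos hs0 (by linarith))]
    refine le_trans ?_ hs2
    refine mul_le_mul_of_nonneg_left ?_ (div_pos hs0 (by linarith)).le
    have h4 := norm_sub_le (u + r • w) y₀
    have h5 := hC _ h2
    have h6 := hC _ hy₀
    linarith
  have h7 := hLK _ h3
  have h8 : a₀ + ι u + (1 : ℝ) • (ι (r • w) + s • (p₀ - (a₀ + ι y₀))) =
      (1 - s) • (a₀ + ι (u + r • w + (s / (1 - s)) • (u + r • w - y₀))) + s • p₀ := by
    simp only [map_add, map_sub, map_smul, smul_add, smul_sub, one_smul, smul_smul]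
    have h9 : (1 - s) * (s / (1 - s)) = s := by
      rw [mul_div_assoc']; exact mul_div_cancel_left₀ _ (by linarith)
    have h10 : (1 - s) * (s / (1 - s) * r) = s * r := by rw [← mul_assoc, h9]
    rw [h9, h10]
    module
  rw [h8]
  exact hK.combo_self_interior_mem_interior h7 hp₀ (by linarith) hs0 (by ring)

/-- If the extreme points of `K` lie in finitely many compact convex subsets, then every point of
`K` has a convex representation with a positive weight at a point of one of them. -/
theorem repr_of_extreme {ι : Type*} [Fintype ι] {K : Set E} (hK : Convex ℝ K) (hKc : IsCompact K)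
    (A : ι → Set E) (hA : ∀ j, Convex ℝ (A j)) (hAc : ∀ j, IsCompact (A j))
    (hAn : ∀ j, (A j).Nonempty) (hAK : ∀ j, A j ⊆ K)
    (hext : K.extremePoints ℝ ⊆ ⋃ j, A j) :
    ∀ z ∈ K, ∃ j, ∃ x ∈ A j, ∃ y ∈ K, ∃ l : ℝ, 0 < l ∧ l ≤ 1 ∧ z = l • x + (1 - l) • y := by
  classical
  -- the set of all convex combinations
  set M : Set E := (fun p : (ι → ℝ) × (ι → E) => ∑ j, p.1 j • p.2 j) ''
    (stdSimplex ℝ ι ×ˢ Set.pi univ A) with hM
  have hMc : IsCompact M := by
    refine IsCompact.image ((isCompact_stdSimplex ℝ ι).prod (isCompact_univ_pi hAc)) ?_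
    refine continuous_finset_sum _ fun j _ => ?_
    exact ((continuous_apply j).comp continuous_fst).smul ((continuous_apply j).comp continuous_snd)
  have hMconv : Convex ℝ M := by
    rintro _ ⟨⟨w, x⟩, ⟨hw, hx⟩, rfl⟩ _ ⟨⟨w', x'⟩, ⟨hw', hx'⟩, rfl⟩ a b ha hb hab
    simp only at hw hw' hx hx' ⊢
    have hw0 := hw.1
    have hw0' := hw'.1
    refine ⟨⟨fun j => a * w j + b * w' j, fun j => if a * w j + b * w' j = 0 then x j else
      (a * w j / (a * w j + b * w' j)) • x j + (b * w' j / (a * w j + b * w' j)) • x' j⟩,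
      ⟨⟨?_, ?_⟩, ?_⟩, ?_⟩
    · intro j
      have := hw0 j
      have := hw0' j
      positivity
    · rw [Finset.sum_add_distrib, ← Finset.mul_sum, ← Finset.mul_sum, hw.2, hw'.2]
      linarith
    · intro j _
      have h1 := hx j (mem_univ j)
      have h2 := hx' j (mem_univ j)
      simp only
      split_ifs with h
      · exact h1
      · have hwj := hw0 j
        have hwj' := hw0' j
        have hp : 0 < a * w j + b * w' j := lt_of_le_of_ne (by positivity) (Ne.symm h)
        exact hA j h1 h2 (by positivity) (by positivity) (by field_simp)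
    · simp only
      rw [Finset.smul_sum, Finset.smul_sum, ← Finset.sum_add_distrib]
      refine Finset.sum_congr rfl fun j _ => ?_
      split_ifs with h
      · have hwj := hw0 j
        have hwj' := hw0' j
        have h1 : a * w j = 0 := by
          have h1 : 0 ≤ a * w j := by positivity
          have h2 : 0 ≤ b * w' j := by positivity
          linarith
        have h2 : b * w' j = 0 := by linarith
        rw [h, zero_smul, smul_smul, smul_smul, h1, h2, zero_smul, zero_smul, add_zero]
      · rw [smul_add, smul_smul, smul_smul, smul_smul, smul_smul, mul_div_cancel₀ _ h,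
          mul_div_cancel₀ _ h]
  have hKM : K ⊆ M := by
    rw [← closure_convexHull_extremePoints hKc hK]
    refine closure_minimal (convexHull_min ?_ hMconv) hMc.isClosed
    intro x hx
    obtain ⟨j, hj⟩ := mem_iUnion.1 (hext hx)
    refine ⟨⟨Pi.single j 1, fun k => if k = j then x else (hAn k).some⟩,
      ⟨single_mem_stdSimplex ℝ j, ?_⟩, ?_⟩
    · intro k _
      simp only
      split_ifs with h
      · rw [h]; exact hj
      · exact (hAn k).some_mem
    · simp only
      rw [Finset.sum_eq_single j]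
      · simp
      · intro k _ hk
        simp [Pi.single_eq_of_ne hk]
      · intro h
        exact absurd (Finset.mem_univ j) h
  intro z hz
  obtain ⟨⟨w, x⟩, ⟨hw, hx⟩, hzx⟩ := hKM hz
  simp only at hw hx hzx
  obtain ⟨j, hj⟩ : ∃ j, 0 < w j := by
    by_contra hcon
    push Not at hcon
    have h1 : ∑ j, w j ≤ 0 := Finset.sum_nonpos fun j _ => hcon j
    rw [hw.2] at h1
    exact absurd h1 (by norm_num)
  have hxK : ∀ k, x k ∈ K := fun k => hAK k (hx k (mem_univ k))
  have hle : w j ≤ 1 := by
    rw [← hw.2]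
    exact Finset.single_le_sum (fun k _ => hw.1 k) (Finset.mem_univ j)
  rcases hle.eq_or_lt with h1 | h1
  · refine ⟨j, x j, hx j (mem_univ j), x j, hxK j, 1, one_pos, le_rfl, ?_⟩
    have h2 : ∀ k, k ≠ j → w k = 0 := by
      intro k hk
      have h3 : w k + w j ≤ ∑ i, w i := by
        rw [← Finset.sum_pair hk]
        exact Finset.sum_le_sum_of_subset_of_nonneg (Finset.subset_univ _) fun i _ _ => hw.1 i
      rw [hw.2, h1] at h3
      have := hw.1 k
      linarith
    rw [← hzx, Finset.sum_eq_single j (fun k _ hk => by rw [h2 k hk, zero_smul])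
      (fun h => absurd (Finset.mem_univ j) h), h1]
    simp
  · have h2 : (1 : ℝ) - w j ≠ 0 := by linarith
    refine ⟨j, x j, hx j (mem_univ j), ∑ k ∈ Finset.univ.erase j, (w k / (1 - w j)) • x k, ?_,
      w j, hj, hle, ?_⟩
    · refine hK.sum_mem (fun k _ => div_nonneg (hw.1 k) (by linarith)) ?_ fun k _ => hxK k
      rw [← Finset.sum_div, div_eq_one_iff_eq h2]
      have h3 := Finset.add_sum_erase Finset.univ w (Finset.mem_univ j)
      have h4 := hw.2
      linarith
    · rw [← hzx, Finset.smul_sum, ← Finset.add_sum_erase Finset.univ _ (Finset.mem_univ j)]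
      congr 1
      refine Finset.sum_congr rfl fun k _ => ?_
      rw [smul_smul, mul_div_cancel₀ _ h2]

end Pool.Agent.TH438.Hull
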